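import Pool.Agent.Q74.BT.Stm6

/-!
# Project BT, part 6: job LowM (the lower bound for the mean number of levels)
-/

set_option autoImplicit false

namespace Pool.Agent.Q223.BT

open Finset
open Pool.Agent.Q158.Pair (T surv nc)
open Pool.Agent.Q74.AR (oc of of_succ of_zero of_nonneg)
open Pool.Agent.Q74.KP (EE Erf EE_add EE_sub EE_mul EE_const EE_sum EE_mono oc_add)
open Pool.Agent.Q74.BT

/-! ### the offset -/

theorem of_le (t : ℕ) : ∀ x : ℤ, of t x ≤ 3 ^ oc t x := by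
  induction t with
  | zero => intro x; rw [of_zero]; positivity
  | succ n ih =>
    intro x
    rw [of_succ]
    have h := ih (T x)
    have hoc : oc (n + 1) x = (if x % 2 = 1 then 1 else 0) + oc n (T x) := rfl
    rw [hoc]
    split_ifs with hx
    · rw [pow_add (3 : ℝ) 1, pow_one]
      have h1 : (3 : ℝ) ^ oc n (T x) / 2 ^ (n + 1) ≤ 3 ^ oc n (T x) :=
        div_le_self (by positivity) (one_le_pow₀ (by norm_num))
      have h2 : (0 : ℝ) < 3 ^ oc n (T x) := by positivity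
      linarith
    · rw [zero_add, add_zero]
      exact h

theorem in_LSg {C : ℝ} {L k t : ℕ} {j : ℤ → ℕ} (hC : 1 ≤ C) (hL : 1 ≤ L) (h : LN C L k j)
    (hk : k ≤ t) (hbig : 8 * (2 * C + 1) * (C * L) ≤ 2 ^ k) (x : ℤ) :
    (oc t (x + j x) : ℤ) ∈ LSg L t x := by
  obtain ⟨hj, -, h3⟩ := h
  obtain ⟨e1, e2, e3⟩ := h3 x
  obtain ⟨r, rfl⟩ := Nat.exists_eq_add_of_le hk
  set y : ℤ := x + j x with hy
  set a : ℕ := oc k y with ha
  set Y : ℤ := T^[k] y with hY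
  set b : ℕ := oc r Y with hb
  have hL0 : (0 : ℝ) < L := by exact_mod_cast hL
  have hCL : 0 < C * L := by positivity
  have h2k : (0 : ℝ) < 2 ^ k := by positivity
  have h3a : 8 * (2 * C + 1) ≤ (3 : ℝ) ^ a := by
    have : 8 * (2 * C + 1) * (C * L) ≤ 3 ^ a * (C * L) := by
      calc 8 * (2 * C + 1) * (C * L) ≤ 2 ^ k := hbig
        _ ≤ C * (3 ^ a * L) := e1
        _ = 3 ^ a * (C * L) := by ring
    exact le_of_mul_le_mul_right this hCL
  have hoc : oc (k + r) y = a + b := by rw [oc_add k r y]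
  unfold LSg
  rw [mem_image]
  refine ⟨j x, ?_, rfl⟩
  rw [mem_filter, mem_range]
  refine ⟨hj x, ?_⟩
  rw [← hy]
  have hT : T^[k + r] y = T^[r] Y := by rw [add_comm k r, Function.iterate_add_apply]
  have hof : ((T^[r] Y : ℤ) : ℝ) = 3 ^ b * Y / 2 ^ r + of r Y := by
    unfold of
    ring
  rw [hT, hoc, hof]
  have hw : |(Y : ℝ) - 3 ^ a * x / 2 ^ k| ≤ 2 * C := by
    have e4 : (Y : ℝ) - 3 ^ a * x / 2 ^ k = ((Y : ℝ) - 3 ^ a * y / 2 ^ k) + 3 ^ a * (j x : ℝ) / 2 ^ k := by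
      rw [hy]
      push_cast
      ring
    have e5 : 3 ^ a * (j x : ℝ) / 2 ^ k ≤ C := by
      rw [div_le_iff₀ h2k]
      refine le_trans ?_ e2
      have : (j x : ℝ) ≤ L := by exact_mod_cast (hj x).le
      gcongr
    have e6 : (0 : ℝ) ≤ 3 ^ a * (j x : ℝ) / 2 ^ k := by positivity
    have e3' : |(Y : ℝ) - 3 ^ a * y / 2 ^ k| ≤ C := by
      have := e3
      rw [hy]
      push_cast
      exact this
    rw [e4]
    rw [abs_le] at e3' ⊢
    constructor <;> linarith [e3'.1, e3'.2]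
  have hval : 3 ^ b * (Y : ℝ) / 2 ^ r + of r Y - 3 ^ (a + b) * x / 2 ^ (k + r) =
      3 ^ b / 2 ^ r * ((Y : ℝ) - 3 ^ a * x / 2 ^ k) + of r Y := by
    rw [pow_add, pow_add]
    field_simp
    ring
  rw [hval]
  have h3b : (0 : ℝ) < 3 ^ b := by positivity
  have f1 : |(3 : ℝ) ^ b / 2 ^ r * ((Y : ℝ) - 3 ^ a * x / 2 ^ k)| ≤ 3 ^ b * (2 * C) := by
    rw [abs_mul, abs_of_pos (by positivity : (0 : ℝ) < 3 ^ b / 2 ^ r)]
    have : (3 : ℝ) ^ b / 2 ^ r ≤ 3 ^ b := div_le_self (by positivity) (one_le_pow₀ (by norm_num))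
    exact mul_le_mul this hw (abs_nonneg _) h3b.le
  have f2 := of_nonneg r Y
  have f3 := of_le r Y
  rw [← hb] at f3
  calc |(3 : ℝ) ^ b / 2 ^ r * ((Y : ℝ) - 3 ^ a * x / 2 ^ k) + of r Y|
      ≤ |(3 : ℝ) ^ b / 2 ^ r * ((Y : ℝ) - 3 ^ a * x / 2 ^ k)| + |of r Y| := abs_add_le _ _
    _ ≤ 3 ^ b * (2 * C) + 3 ^ b := by
        rw [abs_of_nonneg f2]
        linarith
    _ = 3 ^ b * (2 * C + 1) := by ring
    _ ≤ 3 ^ b * (3 ^ a / 8) := by
        apply mul_le_mul_of_nonneg_left _ h3b.le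
        linarith
    _ = 3 ^ (a + b) / 8 := by rw [pow_add]; ring

/-! ### Bonferroni -/

theorem card_inter_le {ι : Type} (S S' : Finset ι) (f g : ι → ℤ) :
    (((S.image f) ∩ (S'.image g)).card : ℝ) ≤ ∑ i ∈ S, ∑ i' ∈ S', (if f i = g i' then 1 else 0) := by
  classical
  have h1 : (S.image f) ∩ (S'.image g) ⊆
      ((S ×ˢ S').filter (fun p => f p.1 = g p.2)).image (fun p => f p.1) := by
    intro y hy
    rw [mem_inter, mem_image, mem_image] at hy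
    obtain ⟨⟨i, hi, rfl⟩, ⟨i', hi', h⟩⟩ := hy
    rw [mem_image]
    refine ⟨(i, i'), ?_, rfl⟩
    rw [mem_filter, mem_product]
    exact ⟨⟨hi, hi'⟩, h.symm⟩
  have h2 := (card_le_card h1).trans card_image_le
  have h3 : ((((S ×ˢ S').filter (fun p => f p.1 = g p.2)).card : ℕ) : ℝ) =
      ∑ i ∈ S, ∑ i' ∈ S', (if f i = g i' then 1 else 0) := by
    rw [← sum_product' S S' (fun i i' => if f i = g i' then (1 : ℝ) else 0), card_filter]
    push_cast
    rfl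
  rw [← h3]
  exact_mod_cast h2

theorem bonf (t : ℕ) (A : ℕ → ℤ → Finset ℤ) (e f : ℕ → ℝ) (ε₁ : ℝ) (hε : 0 ≤ ε₁) (B : ℕ)
    (h1 : ∀ b < B, 1 + e b - ε₁ ≤ EE t (fun x => ((A b x).card : ℝ)))
    (h2 : ∀ b, b + 1 < B → EE t (fun x => ((A b x ∩ A (b + 1) x).card : ℝ)) ≤ 1 + 3 * ε₁)
    (h3 : ∀ b m, 1 ≤ m → b + 1 + m < B → EE t (fun x => ((A b x ∩ A (b + 1 + m) x).card : ℝ)) ≤ f m)
    (h4 : ∀ M, ∑ m ∈ range M, f (m + 1) ≤ ε₁) :
    ∀ B', B' ≤ B → ∑ b ∈ range B', (e b - 5 * ε₁) ≤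
      EE t (fun x => (((range B').biUnion (fun b => A b x)).card : ℝ)) := by
  intro B'
  induction B' with
  | zero =>
    intro _
    simp only [range_zero, sum_empty, biUnion_empty, card_empty, Nat.cast_zero, EE_const, le_refl]
  | succ n ih =>
    intro hn
    have ih' := ih (by omega)
    have hA := h1 n (by omega)
    have hstep : ∀ x : ℤ, (((range n).biUnion (fun b => A b x)).card : ℝ) + ((A n x).card : ℝ) -
        ∑ b ∈ range n, ((A b x ∩ A n x).card : ℝ) ≤ (((range (n + 1)).biUnion (fun b => A b x)).card : ℝ) := by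
      intro x
      have e1 : (range (n + 1)).biUnion (fun b => A b x) = ((range n).biUnion (fun b => A b x)) ∪ A n x := by
        rw [range_add_one, biUnion_insert, union_comm]
      have e2 := card_union_add_card_inter ((range n).biUnion (fun b => A b x)) (A n x)
      have e3 : ((range n).biUnion (fun b => A b x)) ∩ A n x ⊆ (range n).biUnion (fun b => A b x ∩ A n x) := by
        intro y hy
        rw [mem_inter, mem_biUnion] at hy
        obtain ⟨⟨b, hb, hyb⟩, hyn⟩ := hy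
        rw [mem_biUnion]
        exact ⟨b, hb, mem_inter.2 ⟨hyb, hyn⟩⟩
      have e4 := (card_le_card e3).trans card_biUnion_le
      rw [e1]
      have e5 : ((((range n).biUnion (fun b => A b x)) ∪ A n x).card : ℝ) +
          ((((range n).biUnion (fun b => A b x)) ∩ A n x).card : ℝ) =
          (((range n).biUnion (fun b => A b x)).card : ℝ) + ((A n x).card : ℝ) := by
        exact_mod_cast e2
      have e6 : ((((range n).biUnion (fun b => A b x)) ∩ A n x).card : ℝ) ≤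
          ∑ b ∈ range n, ((A b x ∩ A n x).card : ℝ) := by
        exact_mod_cast e4
      linarith
    have hE := EE_mono t hstep
    rw [EE_sub, EE_add, EE_sum t (range n) (fun b x => ((A b x ∩ A n x).card : ℝ))] at hE
    have hsum : ∑ b ∈ range n, EE t (fun x => ((A b x ∩ A n x).card : ℝ)) ≤
        (if n = 0 then 0 else 1 + 3 * ε₁) + ε₁ := by
      rcases n with _ | n
      · simp [hε]
      · rw [sum_range_succ, if_neg (Nat.succ_ne_zero n)]
        have g1 := h2 n (by omega)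
        have g2 : ∑ b ∈ range n, EE t (fun x => ((A b x ∩ A (n + 1) x).card : ℝ)) ≤ ε₁ := by
          refine le_trans ?_ (h4 n)
          rw [← sum_range_reflect (fun m => f (m + 1)) n]
          apply sum_le_sum
          intro b hb
          rw [mem_range] at hb
          have := h3 b (n - b) (by omega) (by omega)
          have e7 : b + 1 + (n - b) = n + 1 := by omega
          rw [e7] at this
          have e8 : n - 1 - b + 1 = n - b := by omega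
          simp only [e8]
          exact this
        linarith
    rw [sum_range_succ]
    split_ifs at hsum with h0
    · subst h0
      linarith
    · linarith

/-! ### numerical facts -/

theorem kap_pos : 0 < kap := by
  unfold kap
  have h2 : 0 < Real.log 2 := Real.log_pos (by norm_num)
  have h3 : 0 < Real.log 3 := Real.log_pos (by norm_num)
  have h34 : Real.log 3 < 2 * Real.log 2 := by
    have e : 2 * Real.log 2 = Real.log 4 := by
      have : (4 : ℝ) = 2 ^ 2 := by norm_num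
      rw [this, Real.log_pow]
      norm_num
    rw [e]
    exact Real.log_lt_log (by norm_num) (by norm_num)
  rw [sub_pos, lt_div_iff₀ h3]
  linarith

theorem kap_lt : kap < 1 / 4 := by
  unfold kap
  have h3 : 0 < Real.log 3 := Real.log_pos (by norm_num)
  have h : 4 * Real.log 2 < 3 * Real.log 3 := by
    have e1 : 4 * Real.log 2 = Real.log 16 := by
      have : (16 : ℝ) = 2 ^ 4 := by norm_num
      rw [this, Real.log_pow]
      norm_num
    have e2 : 3 * Real.log 3 = Real.log 27 := by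
      have : (27 : ℝ) = 3 ^ 3 := by norm_num
      rw [this, Real.log_pow]
      norm_num
    rw [e1, e2]
    exact Real.log_lt_log (by norm_num) (by norm_num)
  rw [sub_lt_iff_lt_add, div_lt_iff₀ h3]
  linarith

theorem log2_lt : Real.log 2 < 1 := by
  have := Real.log_two_lt_d9
  linarith

theorem fsum {h₀ ε₁ H : ℝ} {K : ℕ} (hh : 0 < h₀) (hε : 0 < ε₁) (hε1 : ε₁ ≤ 1 / 100)
    (hH : H = 10 * (1 / h₀ + 2) / ε₁) (hH1 : 2 ≤ H) (hK : (K : ℝ) + 1 ≤ H * (1 / h₀ + 2)) (M : ℕ) :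
    ∑ m ∈ range M, (4 * ((K : ℝ) + 1) ^ 2 * Real.exp (-((0.9 * ((m + 1 : ℕ) : ℝ) * H) ^ 2 / 2))) ≤ ε₁ := by
  set q : ℝ := Real.exp (-(0.4 * H ^ 2)) with hq
  have hq0 : 0 < q := Real.exp_pos _
  have hH0 : 0 < H := by linarith
  have hqb : q ≤ 12.5 / H ^ 4 := by
    have h1 := Real.quadratic_le_exp_of_nonneg (x := 0.4 * H ^ 2) (by positivity)
    have h2 : (0.4 * H ^ 2) ^ 2 / 2 ≤ Real.exp (0.4 * H ^ 2) := by
      have : 0 ≤ 1 + 0.4 * H ^ 2 := by positivity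
      linarith
    rw [hq, Real.exp_neg, le_div_iff₀ (by positivity), inv_mul_le_iff₀ (Real.exp_pos _)]
    nlinarith [pow_pos hH0 4]
  have hq2 : q ≤ 1 / 2 + 1 / 2 * 0.6 := by
    refine hqb.trans ?_
    rw [div_le_iff₀ (by positivity)]
    have : (2 : ℝ) ^ 4 ≤ H ^ 4 := pow_le_pow_left₀ (by norm_num) hH1 4
    nlinarith
  have hterm : ∀ m : ℕ, Real.exp (-((0.9 * ((m + 1 : ℕ) : ℝ) * H) ^ 2 / 2)) ≤ q ^ (m + 1) := by
    intro m
    rw [hq, ← Real.exp_nat_mul]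
    apply Real.exp_le_exp.2
    push_cast
    have hm : (1 : ℝ) ≤ (m : ℝ) + 1 := by
      have : (0 : ℝ) ≤ m := Nat.cast_nonneg m
      linarith
    have h5 : ((m : ℝ) + 1) * H ^ 2 ≤ ((m : ℝ) + 1) ^ 2 * H ^ 2 := by
      apply mul_le_mul_of_nonneg_right _ (by positivity)
      nlinarith
    nlinarith
  have hgeo : ∑ m ∈ range M, q ^ (m + 1) ≤ 5 * q := by
    have h6 : ∑ m ∈ range M, q ^ (m + 1) = ∑ i ∈ Ico 1 (M + 1), q ^ i := by
      rw [sum_Ico_eq_sum_range, Nat.add_sub_cancel]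
      apply sum_congr rfl
      intro m _
      rw [add_comm]
    have h7 : ∑ i ∈ Ico 1 (M + 1), q ^ i ≤ q ^ 1 / (1 - q) :=
      geom_sum_Ico_le_of_lt_one hq0.le (by linarith)
    rw [h6]
    refine h7.trans ?_
    rw [pow_one, div_le_iff₀ (by linarith)]
    nlinarith
  have hsum : ∑ m ∈ range M, (4 * ((K : ℝ) + 1) ^ 2 * Real.exp (-((0.9 * ((m + 1 : ℕ) : ℝ) * H) ^ 2 / 2)))
      ≤ 4 * ((K : ℝ) + 1) ^ 2 * (5 * q) := by
    rw [← mul_sum]
    apply mul_le_mul_of_nonneg_left _ (by positivity)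
    exact (sum_le_sum fun m _ => hterm m).trans hgeo
  refine hsum.trans ?_
  set s : ℝ := 1 / h₀ + 2 with hs
  have hs0 : 0 < s := by positivity
  have hse : s = H * ε₁ / 10 := by rw [hH]; field_simp
  have h10 : 4 * ((K : ℝ) + 1) ^ 2 * (5 * q) ≤ 4 * (H * s) ^ 2 * (5 * (12.5 / H ^ 4)) := by
    have h11 : ((K : ℝ) + 1) ^ 2 ≤ (H * s) ^ 2 := pow_le_pow_left₀ (by positivity) hK 2
    gcongr
  refine h10.trans ?_
  have h12 : 4 * (H * s) ^ 2 * (5 * (12.5 / H ^ 4)) = 2.5 * ε₁ ^ 2 := by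
    rw [hse]
    field_simp
    ring
  rw [h12]
  nlinarith

/-! ### the expectation of the number of levels -/

theorem img_eq {n s : ℕ} (F : ℕ → ℤ) :
    (univ.image fun i : Fin (n + 1) => F (s + i)) = (Icc s (s + n)).image F := by
  ext y
  simp only [mem_image, mem_univ, true_and, mem_Icc]
  constructor
  · rintro ⟨i, rfl⟩
    exact ⟨s + i, ⟨by omega, by omega⟩, rfl⟩
  · rintro ⟨i, ⟨h1, h2⟩, rfl⟩
    refine ⟨⟨i - s, by omega⟩, ?_⟩
    congr 1
    simp only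
    omega

/-- the conclusion of `S_Adj` at `t, L` -/
def AdjAt (C e h₀ ε₁ : ℝ) (K t L : ℕ) : Prop :=
  ∀ k : Fin (K + 1) → ℕ, (∀ i : Fin K, |kap * ((k i.succ : ℝ) - k i.castSucc) - h₀ * √t| ≤ 1) →
  (k (Fin.last K) : ℝ) ≤ (1 - e) * t → ∀ j : Fin (K + 1) → ℤ → ℕ, (∀ i, LN C L (k i) (j i)) →
  |EE t (fun x => ((univ.image fun i => (oc t (x + j i x) : ℤ)).card : ℝ)) -
    (1 + K * Erf (h₀ * √t / √((t : ℝ) - k (Fin.last K))))| ≤ ε₁

theorem adj_use {C e h₀ ε₁ : ℝ} {n t L B K Δ k0 : ℕ} {j : ℕ → ℤ → ℕ} (h : AdjAt C e h₀ ε₁ n t L)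
    (hLN : ∀ i ≤ B * K, LN C L (k0 + i * Δ) (j i))
    (hkt : ∀ i ≤ B * K, ((k0 + i * Δ : ℕ) : ℝ) ≤ (1 - e) * t) (hΔ1 : |kap * Δ - h₀ * √t| ≤ 1)
    (s : ℕ) (hs : s + n ≤ B * K) :
    |EE t (fun x => (((Icc s (s + n)).image fun i => (oc t (x + j i x) : ℤ)).card : ℝ)) -
    (1 + n * Erf (h₀ * √t / √((t : ℝ) - ((k0 + (s + n) * Δ : ℕ) : ℝ))))| ≤ ε₁ := by
  have h1 := h (fun i => k0 + (s + i) * Δ) (by
    intro i
    have e1 : ((k0 + (s + (i.succ : ℕ)) * Δ : ℕ) : ℝ) - ((k0 + (s + (i.castSucc : ℕ)) * Δ : ℕ) : ℝ) = Δ := by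
      rw [Fin.val_succ, Fin.val_castSucc]
      push_cast
      ring
    rw [e1]
    exact hΔ1) (by
    simp only [Fin.val_last]
    exact hkt (s + n) hs) (fun i => j (s + i)) (by
    intro i
    exact hLN (s + i) (by omega))
  simp only [Fin.val_last] at h1
  have e2 : ∀ x : ℤ, (univ.image fun i : Fin (n + 1) => (oc t (x + j (s + i) x) : ℤ)) =
      (Icc s (s + n)).image fun i => (oc t (x + j i x) : ℤ) := fun x =>
    img_eq (fun i => (oc t (x + j i x) : ℤ))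
  simp only [e2] at h1
  exact h1

theorem lower {C C₁ e h₀ ε₁ H : ℝ} {t L B K Δ k0 : ℕ} {j : ℕ → ℤ → ℕ} (hε : 0 ≤ ε₁) (hh : 0 < h₀)
    (ht : 1 ≤ t) (he : 0 < e) (hK1 : 1 ≤ K)
    (hadj : AdjAt C e h₀ ε₁ K t L) (hadj2 : AdjAt C e h₀ ε₁ (2 * K) t L)
    (hfar : ∀ (k k' : ℕ) (j j' : ℤ → ℕ) (D : ℝ), k ≤ k' → k' ≤ t → LN C L k j → LN C L k' j' → 0 ≤ D →
      D + C₁ ≤ kap * ((k' : ℝ) - k) →
      EE t (fun x => Set.indicator {x : ℤ | oc t (x + j x) = oc t (x + j' x)} 1 x) ≤ 4 * Real.exp (-(D ^ 2 / (2 * t))))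
    (hLN : ∀ i ≤ B * K, LN C L (k0 + i * Δ) (j i))
    (hkt : ∀ i ≤ B * K, ((k0 + i * Δ : ℕ) : ℝ) ≤ (1 - e) * t)
    (hΔ1 : |kap * Δ - h₀ * √t| ≤ 1) (hΔ2 : 0.95 * (h₀ * √t) ≤ kap * Δ) (hH1 : 1 ≤ H) (hHK : H ≤ K * h₀)
    (hC1 : C₁ ≤ 0.05 * √t)
    (hsum : ∀ M : ℕ, ∑ m ∈ range M, (4 * ((K : ℝ) + 1) ^ 2 * Real.exp (-((0.9 * ((m + 1 : ℕ) : ℝ) * H) ^ 2 / 2))) ≤ ε₁)
    (hin : ∀ i ≤ B * K, ∀ x, (oc t (x + j i x) : ℤ) ∈ LSg L t x) :
    ∑ b ∈ range B, (K * Erf (h₀ * √t / √((t : ℝ) - ((k0 + (b * K + K) * Δ : ℕ) : ℝ))) - 5 * ε₁) ≤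
      EE t (fun x => ((LSg L t x).card : ℝ)) := by
  have ht0 : (0 : ℝ) < t := by exact_mod_cast ht
  have hst : 1 ≤ √(t : ℝ) := by
    rw [Real.one_le_sqrt]
    exact_mod_cast ht
  set A : ℕ → ℤ → Finset ℤ := fun b x =>
    (Icc (b * K) (b * K + K)).image fun i => (oc t (x + j i x) : ℤ) with hA
  set g : ℕ → ℝ := fun b => h₀ * √t / √((t : ℝ) - ((k0 + (b * K + K) * Δ : ℕ) : ℝ)) with hg
  have hbK : ∀ b, b < B → b * K + K ≤ B * K := by
    intro b hb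
    have : (b + 1) * K ≤ B * K := Nat.mul_le_mul_right K hb
    rw [Nat.succ_mul] at this
    exact this
  have hEA : ∀ b, b < B → |EE t (fun x => ((A b x).card : ℝ)) - (1 + K * Erf (g b))| ≤ ε₁ := by
    intro b hb
    exact adj_use hadj hLN hkt hΔ1 (b * K) (hbK b hb)
  have hunion : ∀ b x, A b x ∪ A (b + 1) x =
      (Icc (b * K) (b * K + 2 * K)).image fun i => (oc t (x + j i x) : ℤ) := by
    intro b x
    rw [hA]
    simp only
    rw [← image_union]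
    congr 1
    ext i
    rw [mem_union, mem_Icc, mem_Icc, mem_Icc, Nat.succ_mul]
    omega
  have hEU : ∀ b, b + 1 < B → |EE t (fun x => ((A b x ∪ A (b + 1) x).card : ℝ)) -
      (1 + 2 * K * Erf (g (b + 1)))| ≤ ε₁ := by
    intro b hb
    have h1 := adj_use hadj2 hLN hkt hΔ1 (b * K) (by
      have := hbK (b + 1) hb
      rw [Nat.succ_mul] at this
      omega)
    simp only [hunion]
    have e1 : b * K + 2 * K = (b + 1) * K + K := by ring
    rw [hg]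
    simp only
    rw [e1] at h1 ⊢
    push_cast at h1 ⊢
    exact h1
  have hgmono : ∀ b, b + 1 < B → g b ≤ g (b + 1) := by
    intro b hb
    rw [hg]
    simp only
    have h1 := hkt ((b + 1) * K + K) (hbK (b + 1) hb)
    have h2 : 0 < (t : ℝ) - ((k0 + ((b + 1) * K + K) * Δ : ℕ) : ℝ) := by nlinarith
    have h3 : ((k0 + (b * K + K) * Δ : ℕ) : ℝ) ≤ ((k0 + ((b + 1) * K + K) * Δ : ℕ) : ℝ) := by
      have : k0 + (b * K + K) * Δ ≤ k0 + ((b + 1) * K + K) * Δ := by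
        apply Nat.add_le_add_left
        apply Nat.mul_le_mul_right
        rw [Nat.succ_mul]
        omega
      exact_mod_cast this
    apply div_le_div_of_nonneg_left (by positivity) (Real.sqrt_pos.2 h2)
    exact Real.sqrt_le_sqrt (by linarith)
  have hinter : ∀ b, b + 1 < B → EE t (fun x => ((A b x ∩ A (b + 1) x).card : ℝ)) ≤ 1 + 3 * ε₁ := by
    intro b hb
    have e1 : ∀ x, ((A b x ∩ A (b + 1) x).card : ℝ) =
        ((A b x).card : ℝ) + ((A (b + 1) x).card : ℝ) - ((A b x ∪ A (b + 1) x).card : ℝ) := by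
      intro x
      have := card_union_add_card_inter (A b x) (A (b + 1) x)
      have h' : ((A b x ∪ A (b + 1) x).card : ℝ) + ((A b x ∩ A (b + 1) x).card : ℝ) =
          ((A b x).card : ℝ) + ((A (b + 1) x).card : ℝ) := by exact_mod_cast this
      linarith
    simp only [e1]
    rw [EE_sub, EE_add]
    have h1 := abs_le.1 (hEA b (by omega))
    have h2 := abs_le.1 (hEA (b + 1) hb)
    have h3 := abs_le.1 (hEU b hb)
    have h4 := Pool.Agent.Q16.BT.Erf_mono (hgmono b hb)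
    have h5 : (0 : ℝ) ≤ K := Nat.cast_nonneg K
    nlinarith [mul_le_mul_of_nonneg_left h4 h5, h1.1, h1.2, h2.1, h2.2, h3.1, h3.2]
  have hfarE : ∀ b m, 1 ≤ m → b + 1 + m < B → EE t (fun x => ((A b x ∩ A (b + 1 + m) x).card : ℝ)) ≤
      4 * ((K : ℝ) + 1) ^ 2 * Real.exp (-((0.9 * (m : ℝ) * H) ^ 2 / 2)) := by
    intro b m hm hb
    have hm1 : (1 : ℝ) ≤ m := by exact_mod_cast hm
    have e1 : ∀ x, ((A b x ∩ A (b + 1 + m) x).card : ℝ) ≤
        ∑ i ∈ Icc (b * K) (b * K + K), ∑ i' ∈ Icc ((b + 1 + m) * K) ((b + 1 + m) * K + K),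
          Set.indicator {x : ℤ | oc t (x + j i x) = oc t (x + j i' x)} 1 x := by
      intro x
      refine (card_inter_le _ _ _ _).trans (le_of_eq ?_)
      apply sum_congr rfl
      intro i _
      apply sum_congr rfl
      intro i' _
      by_cases h : oc t (x + j i x) = oc t (x + j i' x)
      · rw [Set.indicator_of_mem (by exact h), if_pos (by exact_mod_cast h), Pi.one_apply]
      · rw [Set.indicator_of_notMem (by exact h), if_neg (by exact_mod_cast h)]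
    refine (EE_mono t e1).trans ?_
    rw [EE_sum t (Icc (b * K) (b * K + K)) (fun i x =>
      ∑ i' ∈ Icc ((b + 1 + m) * K) ((b + 1 + m) * K + K),
          Set.indicator {x : ℤ | oc t (x + j i x) = oc t (x + j i' x)} 1 x)]
    have e2 : ∀ i ∈ Icc (b * K) (b * K + K), EE t (fun x =>
        ∑ i' ∈ Icc ((b + 1 + m) * K) ((b + 1 + m) * K + K),
          Set.indicator {x : ℤ | oc t (x + j i x) = oc t (x + j i' x)} 1 x) ≤
        ((K : ℝ) + 1) * (4 * Real.exp (-((0.9 * (m : ℝ) * H) ^ 2 / 2))) := by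
      intro i hi
      rw [mem_Icc] at hi
      rw [EE_sum t (Icc ((b + 1 + m) * K) ((b + 1 + m) * K + K)) (fun i' x =>
        Set.indicator {x : ℤ | oc t (x + j i x) = oc t (x + j i' x)} 1 x)]
      have e3 : ∀ i' ∈ Icc ((b + 1 + m) * K) ((b + 1 + m) * K + K), EE t (fun x =>
          Set.indicator {x : ℤ | oc t (x + j i x) = oc t (x + j i' x)} 1 x) ≤
          4 * Real.exp (-((0.9 * (m : ℝ) * H) ^ 2 / 2)) := by
        intro i' hi'
        rw [mem_Icc] at hi'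
        have hiB : i ≤ B * K := hi.2.trans (hbK b (by omega))
        have hi'B : i' ≤ B * K := hi'.2.trans (hbK (b + 1 + m) hb)
        have hexp : (b + 1 + m) * K = b * K + K + m * K := by ring
        have hii : i + m * K ≤ i' := by
          rw [hexp] at hi'
          omega
        have hii' : i ≤ i' := le_trans (Nat.le_add_right _ _) hii
        have hk'1 := hkt i' hi'B
        have hk't : k0 + i' * Δ ≤ t := by
          have : ((k0 + i' * Δ : ℕ) : ℝ) ≤ t := by nlinarith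
          exact_mod_cast this
        have hD := hfar (k0 + i * Δ) (k0 + i' * Δ) (j i) (j i') (0.9 * m * H * √t)
          (Nat.add_le_add_left (Nat.mul_le_mul_right _ hii') _) hk't (hLN i hiB) (hLN i' hi'B)
          (by positivity) (by
            have g1 : ((k0 + i' * Δ : ℕ) : ℝ) - ((k0 + i * Δ : ℕ) : ℝ) = ((i' : ℝ) - i) * Δ := by
              push_cast
              ring
            have g2 : (m : ℝ) * K ≤ (i' : ℝ) - i := by
              have : ((i + m * K : ℕ) : ℝ) ≤ i' := by exact_mod_cast hii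
              push_cast at this
              linarith
            rw [g1]
            have g3 : 0 ≤ kap * Δ := le_trans (by positivity) hΔ2
            have g4 : (m : ℝ) * K * (kap * Δ) ≤ kap * (((i' : ℝ) - i) * Δ) := by
              calc (m : ℝ) * K * (kap * Δ) ≤ ((i' : ℝ) - i) * (kap * Δ) := mul_le_mul_of_nonneg_right g2 g3
                _ = kap * (((i' : ℝ) - i) * Δ) := by ring
            have g5 : (m : ℝ) * K * (0.95 * (h₀ * √t)) ≤ (m : ℝ) * K * (kap * Δ) :=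
              mul_le_mul_of_nonneg_left hΔ2 (by positivity)
            have g6 : 0.95 * (m * H * √t) ≤ (m : ℝ) * K * (0.95 * (h₀ * √t)) := by
              have : (m : ℝ) * √t * H ≤ (m : ℝ) * √t * (K * h₀) :=
                mul_le_mul_of_nonneg_left hHK (by positivity)
              linarith
            have g7 : √(t : ℝ) ≤ m * H * √t := by
              have : (1 : ℝ) ≤ m * H := by nlinarith
              nlinarith
            linarith)
        refine hD.trans (le_of_eq ?_)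
        congr 2
        have hss : √(t : ℝ) ^ 2 = t := Real.sq_sqrt ht0.le
        have : (0.9 * (m : ℝ) * H * √t) ^ 2 = (0.9 * (m : ℝ) * H) ^ 2 * t := by
          rw [mul_pow, hss]
        rw [this]
        field_simp
      refine (sum_le_sum e3).trans ?_
      rw [sum_const, Nat.card_Icc, nsmul_eq_mul]
      have : ((b + 1 + m) * K + K + 1 - (b + 1 + m) * K : ℕ) = K + 1 := by omega
      rw [this]
      push_cast
      exact le_rfl
    refine (sum_le_sum e2).trans ?_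
    rw [sum_const, Nat.card_Icc, nsmul_eq_mul]
    have : (b * K + K + 1 - b * K : ℕ) = K + 1 := by omega
    rw [this]
    push_cast
    exact le_of_eq (by ring)
  have hb := bonf t A (fun b => K * Erf (g b))
    (fun m => 4 * ((K : ℝ) + 1) ^ 2 * Real.exp (-((0.9 * (m : ℝ) * H) ^ 2 / 2))) ε₁ hε B
    (by
      intro b hb
      have := (abs_le.1 (hEA b hb)).1
      linarith) hinter hfarE hsum B le_rfl
  refine hb.trans (EE_mono t fun x => ?_)
  have hsub : (range B).biUnion (fun b => A b x) ⊆ LSg L t x := by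
    intro y hy
    rw [mem_biUnion] at hy
    obtain ⟨b, hb, hy⟩ := hy
    rw [hA] at hy
    simp only [mem_image] at hy
    obtain ⟨i, hi, rfl⟩ := hy
    rw [mem_Icc] at hi
    rw [mem_range] at hb
    exact hin i (hi.2.trans (hbK b hb)) x
  exact_mod_cast card_le_card hsub

/-! ### the Riemann sum -/

theorem riem {e h₀ δ Λ K t k0 : ℝ} (hh : 0 < h₀) (he : 0 < e) (ht : 0 < t) (hδ : δ = h₀ ^ 2 / (3 * e))
    (hδ1 : δ ≤ 1) (hΛ0 : 0 ≤ Λ) (hK : 0 ≤ K) (hΛ : kap * Λ ≤ K * (h₀ * √t)) (B : ℕ)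
    (hB : k0 + B * Λ ≤ (1 - e) * t) :
    2 / √Real.pi * (1 - δ) * (2 * kap) * (√(t - k0) - √(t - (k0 + B * Λ))) ≤
      ∑ b ∈ range B, K * Erf (h₀ * √t / √(t - (k0 + (b + 1) * Λ))) := by
  induction B with
  | zero => simp
  | succ n ih =>
    have hn : (n : ℝ) * Λ ≤ ((n + 1 : ℕ) : ℝ) * Λ := by
      push_cast
      nlinarith
    have ih' := ih (by linarith)
    rw [sum_range_succ]
    push_cast at hB hn ⊢
    set p : ℝ := √(t - (k0 + n * Λ)) with hp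
    set r : ℝ := √(t - (k0 + (n + 1) * Λ)) with hr
    have het : e * t ≤ t - (k0 + (n + 1) * Λ) := by linarith
    have het0 : 0 < e * t := by positivity
    have hr0 : 0 < r := Real.sqrt_pos.2 (by linarith)
    have hrr : r ^ 2 = t - (k0 + (n + 1) * Λ) := Real.sq_sqrt (by linarith)
    have hpp : p ^ 2 = t - (k0 + n * Λ) := Real.sq_sqrt (by nlinarith)
    have hpr : r ≤ p := Real.sqrt_le_sqrt (by nlinarith)
    have hst : √t ^ 2 = t := Real.sq_sqrt ht.le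
    set g : ℝ := h₀ * √t / r with hg
    have hg0 : 0 ≤ g := by positivity
    have hg2 : g ^ 2 ≤ h₀ ^ 2 / e := by
      rw [hg, div_pow, mul_pow, hst, hrr, div_le_div_iff₀ (by linarith) he]
      nlinarith [sq_nonneg h₀, mul_le_mul_of_nonneg_left het (sq_nonneg h₀)]
    have hgδ : g ^ 2 / 3 ≤ δ := by
      rw [hδ]
      have : h₀ ^ 2 / (3 * e) = (h₀ ^ 2 / e) / 3 := by
        field_simp
      rw [this]
      linarith
    have hKg : 2 * kap * (p - r) ≤ K * g := by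
      have e1 : 2 * (p - r) * r ≤ Λ := by nlinarith
      have e2 : kap * (2 * (p - r) * r) ≤ kap * Λ := mul_le_mul_of_nonneg_left e1 kap_pos.le
      have e3 : K * g = K * (h₀ * √t) / r := by rw [hg]; ring
      rw [e3, le_div_iff₀ hr0]
      nlinarith
    have hE := Pool.Agent.Q14.BT.Erf_low hg0
    have hc : 0 < 2 / √Real.pi := by positivity
    have e4 : 2 / √Real.pi * ((1 - δ) * g) ≤ Erf g := by
      refine le_trans ?_ hE
      apply mul_le_mul_of_nonneg_left _ hc.le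
      have : g ^ 3 = g * g ^ 2 := by ring
      rw [this]
      nlinarith
    have e5 : 2 / √Real.pi * (1 - δ) * (2 * kap) * (p - r) ≤ K * Erf g := by
      calc 2 / √Real.pi * (1 - δ) * (2 * kap) * (p - r)
          = (2 / √Real.pi * (1 - δ)) * (2 * kap * (p - r)) := by ring
        _ ≤ (2 / √Real.pi * (1 - δ)) * (K * g) :=
            mul_le_mul_of_nonneg_left hKg (mul_nonneg hc.le (by linarith))
        _ = K * (2 / √Real.pi * ((1 - δ) * g)) := by ring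
        _ ≤ K * Erf g := mul_le_mul_of_nonneg_left e4 hK
    have e6 : 2 / √Real.pi * (1 - δ) * (2 * kap) * (√(t - k0) - r) =
        2 / √Real.pi * (1 - δ) * (2 * kap) * (√(t - k0) - p) +
        2 / √Real.pi * (1 - δ) * (2 * kap) * (p - r) := by ring
    rw [e6]
    linarith

/-! ### the last estimate -/

theorem fin_est {α₁ α₂ η e ℓ t k0 Λ B P Q P' Q' : ℝ} (he : 0 < e) (ht : 0 < t) (hℓ : 0 ≤ ℓ)
    (hη : 0 ≤ η) (hα : α₁ ≤ α₂) (h1 : α₂ * ℓ ≤ (1 - e) * t) (he1 : e ≤ 1)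
    (hk0 : (α₁ + η) * ℓ ≤ k0) (hk1 : k0 ≤ (α₁ + η) * ℓ + 1) (hB1 : k0 + B * Λ ≤ (α₂ - η) * ℓ)
    (hB2 : (α₂ - η) * ℓ ≤ k0 + B * Λ + Λ) (hBΛ : 0 ≤ B * Λ)
    (hP : P = √(t - k0)) (hQ : Q = √(t - (k0 + B * Λ))) (hP' : P' = √(t - α₁ * ℓ))
    (hQ' : Q' = √(t - α₂ * ℓ)) :
    (P' - Q') * (e * √t) ≤ (α₂ - α₁) * ℓ ∧ 0 ≤ P' - Q' ∧
    (P' - Q') * (e * √t) - (2 * η * ℓ + 1 + Λ) ≤ (P - Q) * (e * √t) ∧ Q ≤ P := by
  have hηℓ : 0 ≤ η * ℓ := mul_nonneg hη hℓ
  have hαℓ : α₁ * ℓ ≤ α₂ * ℓ := mul_le_mul_of_nonneg_right hα hℓ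
  have hst : √t ^ 2 = t := Real.sq_sqrt ht.le
  have het : 0 < e * t := by positivity
  have hρ : ∀ u : ℝ, e * t ≤ u → e * √t ≤ √u := by
    intro u hu
    apply Real.le_sqrt_of_sq_le
    rw [mul_pow, hst]
    nlinarith
  have a1 : e * t ≤ t - α₂ * ℓ := by linarith
  have a2 : t - α₂ * ℓ ≤ t - α₁ * ℓ := by linarith
  have a3 : t - k0 ≤ t - α₁ * ℓ := by nlinarith
  have a4 : t - α₂ * ℓ ≤ t - (k0 + B * Λ) := by nlinarith
  have a5 : t - (k0 + B * Λ) ≤ t - k0 := by linarith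
  have b1 : Q' ≤ P' := by rw [hP', hQ']; exact Real.sqrt_le_sqrt a2
  have b2 : P ≤ P' := by rw [hP', hP]; exact Real.sqrt_le_sqrt a3
  have b3 : Q' ≤ Q := by rw [hQ', hQ]; exact Real.sqrt_le_sqrt a4
  have b4 : Q ≤ P := by rw [hP, hQ]; exact Real.sqrt_le_sqrt a5
  have c1 : P' ^ 2 = t - α₁ * ℓ := by rw [hP']; exact Real.sq_sqrt (by linarith)
  have c2 : Q' ^ 2 = t - α₂ * ℓ := by rw [hQ']; exact Real.sq_sqrt (by linarith)
  have c3 : P ^ 2 = t - k0 := by rw [hP]; exact Real.sq_sqrt (by linarith)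
  have c4 : Q ^ 2 = t - (k0 + B * Λ) := by rw [hQ]; exact Real.sq_sqrt (by linarith)
  have d1 : e * √t ≤ P' := by rw [hP']; exact hρ _ (by linarith)
  have d2 : e * √t ≤ Q := by rw [hQ]; exact hρ _ (by linarith)
  have d3 : 0 ≤ P := by rw [hP]; exact Real.sqrt_nonneg _
  have d4 : 0 ≤ Q' := by rw [hQ']; exact Real.sqrt_nonneg _
  have e1 : (P' - Q') * (e * √t) ≤ (P' - Q') * (P' + Q') :=
    mul_le_mul_of_nonneg_left (by linarith) (by linarith)
  have e2 : (P' - P) * (e * √t) ≤ (P' - P) * (P' + P) :=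
    mul_le_mul_of_nonneg_left (by linarith) (by linarith)
  have e3 : (Q - Q') * (e * √t) ≤ (Q - Q') * (Q + Q') :=
    mul_le_mul_of_nonneg_left (by linarith) (by linarith)
  refine ⟨by nlinarith, by linarith, ?_, b4⟩
  have f1 : (P' - P) * (P' + P) = k0 - α₁ * ℓ := by
    have : (P' - P) * (P' + P) = P' ^ 2 - P ^ 2 := by ring
    rw [this, c1, c3]; ring
  have f2 : (Q - Q') * (Q + Q') = α₂ * ℓ - (k0 + B * Λ) := by
    have : (Q - Q') * (Q + Q') = Q ^ 2 - Q' ^ 2 := by ring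
    rw [this, c4, c2]; ring
  have f3 : (P - Q) * (e * √t) = (P' - Q') * (e * √t) - (P' - P) * (e * √t) - (Q - Q') * (e * √t) := by
    ring
  rw [f3]
  nlinarith

theorem final {e ε η δ ε₁ h₀ H Λ M₀ α₁ α₂ ℓ st B K P Q P' Q' S c k0 : ℝ} (he0 : 0 < e) (he1 : e ≤ 1)
    (heε : e ≤ ε) (hη1 : η ≤ e ^ 2 / 8) (hδe : δ = e ^ 3 / 300) (hε1 : ε₁ = e / 840) (hα1 : 1 < α₁)
    (hα42 : α₂ ≤ 42) (hℓ0 : 0 < ℓ) (hη0 : 0 < η) (hk0 : 0 ≤ k0) (hM₀ : M₀ = 4 * (1 + (H + 1) / kap) / e ^ 2)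
    (hMt : M₀ * st ≤ ℓ) (hst1 : 1 ≤ st) (hΛst : st ≤ Λ) (hΛ1 : kap * Λ ≤ K * (h₀ * st))
    (hKh : K * h₀ ≤ H + 1) (hB0 : 0 ≤ B) (hB1 : B * Λ ≤ (α₂ - η) * ℓ - k0)
    (g1 : (P' - Q') * (e * st) ≤ (α₂ - α₁) * ℓ) (g2 : 0 ≤ P' - Q')
    (g3 : (P' - Q') * (e * st) - (2 * η * ℓ + 1 + Λ) ≤ (P - Q) * (e * st))
    (hriem : c * (1 - δ) * (P - Q) ≤ S) (hc0 : 0 ≤ c) (hc1 : c ≤ 1) :
    c * (P' - Q') - ε * (ℓ / st) ≤ S - B * (5 * ε₁) := by
  have hkap0 := kap_pos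
  have hst0 : 0 < st := by linarith
  have hδ0 : 0 ≤ δ := by rw [hδe]; positivity
  have he3 : e ^ 3 ≤ 1 := pow_le_one₀ he0.le he1
  have hδ1 : δ ≤ 1 := by rw [hδe]; linarith
  have hW : ∃ W : ℝ, W = ℓ / st := ⟨_, rfl⟩
  obtain ⟨W, hW⟩ := hW
  have hWt : W * st = ℓ := by rw [hW]; field_simp
  have hW0 : 0 < W := by rw [hW]; positivity
  rw [← hW]
  -- the bound for the number of blocks
  have hBW : B ≤ 42 * W := by
    have e1 : B * st ≤ B * Λ := mul_le_mul_of_nonneg_left hΛst hB0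
    have e2 : B * Λ ≤ 42 * ℓ := by
      have : (α₂ - η) * ℓ ≤ 42 * ℓ := mul_le_mul_of_nonneg_right (by linarith) hℓ0.le
      linarith
    have e3 : B * st ≤ (42 * W) * st := by
      rw [mul_assoc, hWt]
      linarith
    exact le_of_mul_le_mul_right e3 hst0
  have hPQ' : P' - Q' ≤ 42 * W / e := by
    rw [le_div_iff₀ he0]
    have e1 : (P' - Q') * e * st ≤ (42 * W) * st := by
      have : (α₂ - α₁) * ℓ ≤ 42 * ℓ := mul_le_mul_of_nonneg_right (by linarith) hℓ0.le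
      rw [mul_assoc 42, hWt]
      linarith
    exact le_of_mul_le_mul_right e1 hst0
  have hE1 : 2 * η * ℓ + 1 + Λ ≤ e ^ 2 / 2 * ℓ := by
    have e1 : 2 * η * ℓ ≤ e ^ 2 / 4 * ℓ := by
      apply mul_le_mul_of_nonneg_right _ hℓ0.le
      linarith
    have e2 : Λ ≤ (H + 1) / kap * st := by
      have e3 : kap * Λ ≤ (H + 1) * st := by
        refine hΛ1.trans ?_
        have := mul_le_mul_of_nonneg_right hKh hst0.le
        linarith
      rw [div_mul_eq_mul_div, le_div_iff₀ hkap0]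
      linarith
    have e3 : 1 + Λ ≤ (1 + (H + 1) / kap) * st := by
      rw [add_mul, one_mul]
      linarith
    have e4 : e ^ 2 * M₀ = 4 * (1 + (H + 1) / kap) := by
      rw [hM₀]
      field_simp
    have e5 : (1 + (H + 1) / kap) * st ≤ e ^ 2 / 4 * ℓ := by
      have e6 : (1 + (H + 1) / kap) = e ^ 2 / 4 * M₀ := by linarith
      rw [e6, mul_assoc]
      exact mul_le_mul_of_nonneg_left hMt (by positivity)
    linarith
  have hXX : (P' - Q') - e / 2 * W ≤ P - Q := by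
    have e1 : ((P' - Q') - e / 2 * W) * (e * st) ≤ (P - Q) * (e * st) := by
      refine le_trans ?_ g3
      have e2 : e / 2 * W * (e * st) = e ^ 2 / 2 * ℓ := by
        calc e / 2 * W * (e * st) = e ^ 2 / 2 * (W * st) := by ring
          _ = e ^ 2 / 2 * ℓ := by rw [hWt]
      rw [sub_mul, e2]
      linarith
    exact le_of_mul_le_mul_right e1 (by positivity)
  have hδW : δ * (P' - Q') ≤ 0.14 * (e * W) := by
    calc δ * (P' - Q') ≤ δ * (42 * W / e) := mul_le_mul_of_nonneg_left hPQ' hδ0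
      _ = 0.14 * (e ^ 2 * W) := by
          rw [hδe]
          field_simp
          ring
      _ ≤ 0.14 * (e * W) := by
          apply mul_le_mul_of_nonneg_left _ (by norm_num)
          apply mul_le_mul_of_nonneg_right _ hW0.le
          nlinarith
  have hBε : B * (5 * ε₁) ≤ e / 4 * W := by
    calc B * (5 * ε₁) ≤ (42 * W) * (5 * ε₁) := mul_le_mul_of_nonneg_right hBW (by rw [hε1]; positivity)
      _ = e / 4 * W := by rw [hε1]; ring
  have hmain : c * (P' - Q') - 0.14 * (e * W) - e / 2 * W ≤ c * (1 - δ) * (P - Q) := by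
    have e1 : c * (1 - δ) * ((P' - Q') - e / 2 * W) ≤ c * (1 - δ) * (P - Q) :=
      mul_le_mul_of_nonneg_left hXX (mul_nonneg hc0 (by linarith))
    refine le_trans ?_ e1
    have e2 : c * (1 - δ) * ((P' - Q') - e / 2 * W) =
        c * (P' - Q') - c * (δ * (P' - Q')) - c * (1 - δ) * (e / 2 * W) := by ring
    rw [e2]
    have e3 : c * (δ * (P' - Q')) ≤ 1 * (δ * (P' - Q')) :=
      mul_le_mul_of_nonneg_right hc1 (mul_nonneg hδ0 g2)
    have e4 : c * (1 - δ) ≤ 1 := by nlinarith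
    have e5 : c * (1 - δ) * (e / 2 * W) ≤ 1 * (e / 2 * W) :=
      mul_le_mul_of_nonneg_right e4 (by positivity)
    linarith
  have hεW : e * W ≤ ε * W := mul_le_mul_of_nonneg_right heε hW0.le
  have heW : 0 < e * W := by positivity
  linarith

theorem lowM (h1 : S_NetE) (h2 : S_Adj) (h3 : S_Far) : S_LowM := by
  intro γ hγ α₁ α₂ ε hα₁ hα hα₂ hε
  have hkap0 := kap_pos
  have hkap1 := kap_lt
  have hlog0 : 0 < Real.log 2 := Real.log_pos (by norm_num)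
  have hlog1 := log2_lt
  have hα1 : 1 < α₁ := by
    refine lt_of_lt_of_le ?_ hα₁
    rw [lt_div_iff₀ hlog0]
    linarith
  have hα42 : α₂ ≤ 42 := by
    have := hγ.2.1
    linarith
  obtain ⟨e, he⟩ : ∃ e : ℝ, e = min ε 1 := ⟨_, rfl⟩
  have he0 : 0 < e := by rw [he]; exact lt_min hε one_pos
  have he1 : e ≤ 1 := by rw [he]; exact min_le_right _ _
  have heε : e ≤ ε := by rw [he]; exact min_le_left _ _
  obtain ⟨η, hηd⟩ : ∃ η : ℝ, η = min (e ^ 2 / 8) ((α₂ - α₁) / 4) := ⟨_, rfl⟩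
  have hη0 : 0 < η := by rw [hηd]; exact lt_min (by positivity) (by linarith)
  have hη1 : η ≤ e ^ 2 / 8 := by rw [hηd]; exact min_le_left _ _
  have hη2 : η ≤ (α₂ - α₁) / 4 := by rw [hηd]; exact min_le_right _ _
  obtain ⟨C, hC, L₀, hnet⟩ := h1 γ hγ (α₁ + η) (α₂ - η) (by linarith) (by linarith) (by linarith)
  obtain ⟨h₀, hh⟩ : ∃ h₀ : ℝ, h₀ = e ^ 2 / 10 := ⟨_, rfl⟩
  have hh0 : 0 < h₀ := by rw [hh]; positivity
  have hh1 : h₀ ≤ 1 / 10 := by rw [hh]; nlinarith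
  obtain ⟨ε₁, hε1⟩ : ∃ ε₁ : ℝ, ε₁ = e / 840 := ⟨_, rfl⟩
  have hε10 : 0 < ε₁ := by rw [hε1]; positivity
  have hε11 : ε₁ ≤ 1 / 100 := by rw [hε1]; linarith
  obtain ⟨C₁, hfar⟩ := h3 C hC
  obtain ⟨H, hH⟩ : ∃ H : ℝ, H = 10 * (1 / h₀ + 2) / ε₁ := ⟨_, rfl⟩
  have hH2 : 2 ≤ H := by
    rw [hH, le_div_iff₀ hε10]
    have : 0 < 1 / h₀ := by positivity
    linarith
  have hH0 : 0 < H := by linarith
  obtain ⟨K, hKd⟩ : ∃ K : ℕ, K = ⌈H / h₀⌉₊ := ⟨_, rfl⟩
  have hK1 : 1 ≤ K := by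
    rw [hKd]
    exact Nat.one_le_iff_ne_zero.2 (Nat.ceil_pos.2 (by positivity)).ne'
  have hKlo : H ≤ K * h₀ := by
    have := Nat.le_ceil (H / h₀)
    rw [← hKd, div_le_iff₀ hh0] at this
    exact this
  have hKhi : (K : ℝ) < H / h₀ + 1 := by
    rw [hKd]
    exact Nat.ceil_lt_add_one (by positivity)
  have hKhi2 : (K : ℝ) + 1 ≤ H * (1 / h₀ + 2) := by
    have : H * (1 / h₀ + 2) = H / h₀ + 2 * H := by ring
    rw [this]
    linarith
  have hKh : (K : ℝ) * h₀ ≤ H + 1 := by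
    have e1 : (K : ℝ) * h₀ ≤ (H / h₀ + 1) * h₀ := mul_le_mul_of_nonneg_right hKhi.le hh0.le
    have e2 : (H / h₀ + 1) * h₀ = H + h₀ := by field_simp
    rw [e2] at e1
    linarith
  obtain ⟨ta, hta⟩ := h2 C e h₀ ε₁ K hC he0 hh0 hε10
  obtain ⟨tb, htb⟩ := h2 C e h₀ ε₁ (2 * K) hC he0 hh0 hε10
  have hden : 0 < (α₁ + η) * Real.log 2 - 1 := by
    have e1 : 1 ≤ α₁ * Real.log 2 := by
      rw [div_le_iff₀ hlog0] at hα₁
      exact hα₁
    nlinarith [mul_pos hη0 hlog0]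
  obtain ⟨lC, hlC⟩ : ∃ lC : ℝ, lC = Real.log (8 * (2 * C + 1) * C) := ⟨_, rfl⟩
  have hlC0 : 0 ≤ lC := by
    rw [hlC]
    apply Real.log_nonneg
    nlinarith
  obtain ⟨R, hR⟩ : ∃ R : ℝ, R = 1 + 20 * kap / h₀ + 20 * |C₁| + Real.log (L₀ + 1) +
      lC / ((α₁ + η) * Real.log 2 - 1) + 2 / (α₂ - α₁) := ⟨_, rfl⟩
  have hR1 : 0 ≤ 20 * kap / h₀ := by positivity
  have hR2 : 0 ≤ 20 * |C₁| := by positivity
  have hR3 : 0 ≤ Real.log (L₀ + 1) := Real.log_nonneg (by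
    have : (0 : ℝ) ≤ L₀ := Nat.cast_nonneg _
    linarith)
  have hR4 : 0 ≤ lC / ((α₁ + η) * Real.log 2 - 1) := by positivity
  have hR5 : 0 ≤ 2 / (α₂ - α₁) := div_nonneg (by norm_num) (by linarith)
  obtain ⟨M₀, hM₀⟩ : ∃ M₀ : ℝ, M₀ = 4 * (1 + (H + 1) / kap) / e ^ 2 := ⟨_, rfl⟩
  have hM1 : 1 ≤ M₀ := by
    rw [hM₀, le_div_iff₀ (by positivity)]
    have : 0 ≤ (H + 1) / kap := by positivity
    nlinarith
  refine ⟨M₀, by linarith, max (max ta tb) (⌈R ^ 2⌉₊ + 1), ?_⟩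
  intro t ht L hL hMt hαt
  have hta' : ta ≤ t := le_trans (le_trans (le_max_left _ _) (le_max_left _ _)) ht
  have htb' : tb ≤ t := le_trans (le_trans (le_max_right _ _) (le_max_left _ _)) ht
  have htR : ⌈R ^ 2⌉₊ + 1 ≤ t := le_trans (le_max_right _ _) ht
  have ht1 : 1 ≤ t := by omega
  have ht0 : (0 : ℝ) < t := by exact_mod_cast ht1
  have hst0 : 0 < √(t : ℝ) := Real.sqrt_pos.2 ht0
  have hRt : R ≤ √(t : ℝ) := by
    apply Real.le_sqrt_of_sq_le
    have e1 := Nat.le_ceil (R ^ 2)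
    have e2 : ((⌈R ^ 2⌉₊ : ℕ) : ℝ) ≤ t := by
      have : ⌈R ^ 2⌉₊ ≤ t := by omega
      exact_mod_cast this
    linarith
  set ℓ : ℝ := Real.log L with hℓd
  have hℓt : √(t : ℝ) ≤ ℓ := by nlinarith
  have hRℓ : R ≤ ℓ := hRt.trans hℓt
  have hℓ0 : 0 < ℓ := lt_of_lt_of_le hst0 hℓt
  have hL0 : (0 : ℝ) < L := by exact_mod_cast hL
  have hαe : α₂ * ℓ ≤ (1 - e) * t := by nlinarith
  have hℓt' : ℓ ≤ t := by nlinarith
  have hLL : L₀ ≤ L := by
    have e1 : Real.log (L₀ + 1) ≤ Real.log L := by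
      rw [← hℓd]
      linarith
    have e2 : (L₀ : ℝ) + 1 ≤ L := by
      rwa [Real.log_le_log_iff (by positivity) hL0] at e1
    have e3 : L₀ + 1 ≤ L := by exact_mod_cast e2
    omega
  obtain ⟨k0, hk0d⟩ : ∃ k0 : ℕ, k0 = ⌈(α₁ + η) * ℓ⌉₊ := ⟨_, rfl⟩
  have hk0a : (α₁ + η) * ℓ ≤ k0 := by rw [hk0d]; exact Nat.le_ceil _
  have hk0b : (k0 : ℝ) ≤ (α₁ + η) * ℓ + 1 := by
    rw [hk0d]
    exact (Nat.ceil_lt_add_one (by positivity)).le
  obtain ⟨Δ, hΔd⟩ : ∃ Δ : ℕ, Δ = ⌊h₀ * √(t : ℝ) / kap⌋₊ := ⟨_, rfl⟩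
  have hΔa : kap * Δ ≤ h₀ * √(t : ℝ) := by
    have := Nat.floor_le (a := h₀ * √(t : ℝ) / kap) (by positivity)
    rw [← hΔd, le_div_iff₀ hkap0] at this
    linarith
  have hΔb : h₀ * √(t : ℝ) - kap ≤ kap * Δ := by
    have := Nat.lt_floor_add_one (h₀ * √(t : ℝ) / kap)
    rw [← hΔd, div_lt_iff₀ hkap0] at this
    linarith
  have hΔ1 : |kap * Δ - h₀ * √(t : ℝ)| ≤ 1 := by
    rw [abs_le]
    constructor <;> linarith
  have hΔ2 : 0.95 * (h₀ * √(t : ℝ)) ≤ kap * Δ := by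
    have e1 : 20 * kap / h₀ ≤ √(t : ℝ) := by linarith
    rw [div_le_iff₀ hh0] at e1
    linarith
  have hΛ1 : kap * ((K : ℝ) * Δ) ≤ K * (h₀ * √(t : ℝ)) := by
    have : (0 : ℝ) ≤ K := Nat.cast_nonneg K
    nlinarith
  have hΛ2 : 0.95 * (H * √(t : ℝ)) ≤ kap * ((K : ℝ) * Δ) := by
    have h0 : (0 : ℝ) ≤ K := Nat.cast_nonneg K
    have e1 : (K : ℝ) * (0.95 * (h₀ * √(t : ℝ))) ≤ K * (kap * Δ) := mul_le_mul_of_nonneg_left hΔ2 h0
    have e2 : H * √(t : ℝ) ≤ K * h₀ * √(t : ℝ) := mul_le_mul_of_nonneg_right hKlo hst0.le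
    linarith
  obtain ⟨Λ, hΛd⟩ : ∃ Λ : ℝ, Λ = (K : ℝ) * Δ := ⟨_, rfl⟩
  rw [← hΛd] at hΛ1 hΛ2
  have hΛst : √(t : ℝ) ≤ Λ := by
    have e1 : 1.9 * √(t : ℝ) ≤ kap * Λ := by
      have : 2 * √(t : ℝ) ≤ H * √(t : ℝ) := mul_le_mul_of_nonneg_right hH2 hst0.le
      linarith
    have e2 : 0 ≤ Λ := by
      by_contra hneg
      push Not at hneg
      nlinarith [mul_neg_of_pos_of_neg hkap0 hneg]
    nlinarith
  have hΛ0 : 0 < Λ := lt_of_lt_of_le hst0 hΛst
  have hgap : 0 ≤ (α₂ - η) * ℓ - k0 := by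
    have e1 : 2 / (α₂ - α₁) ≤ ℓ := by linarith
    rw [div_le_iff₀ (by linarith)] at e1
    have e2 : (α₂ - α₁) / 2 * ℓ ≤ (α₂ - η - (α₁ + η)) * ℓ := by
      apply mul_le_mul_of_nonneg_right _ hℓ0.le
      linarith
    linarith
  obtain ⟨B, hBd⟩ : ∃ B : ℕ, B = ⌊((α₂ - η) * ℓ - k0) / Λ⌋₊ := ⟨_, rfl⟩
  have hB1 : (B : ℝ) * Λ ≤ (α₂ - η) * ℓ - k0 := by
    have := Nat.floor_le (a := ((α₂ - η) * ℓ - k0) / Λ) (by positivity)
    rw [← hBd, le_div_iff₀ hΛ0] at this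
    exact this
  have hB2 : (α₂ - η) * ℓ - k0 ≤ B * Λ + Λ := by
    have := Nat.lt_floor_add_one (((α₂ - η) * ℓ - k0) / Λ)
    rw [← hBd, div_lt_iff₀ hΛ0] at this
    linarith
  have hiB : ∀ i ≤ B * K, ((k0 + i * Δ : ℕ) : ℝ) ≤ (α₂ - η) * ℓ := by
    intro i hi
    have e1 : ((k0 + i * Δ : ℕ) : ℝ) ≤ ((k0 + B * K * Δ : ℕ) : ℝ) := by
      have : k0 + i * Δ ≤ k0 + B * K * Δ := Nat.add_le_add_left (Nat.mul_le_mul_right _ hi) _
      exact_mod_cast this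
    refine e1.trans ?_
    push_cast
    have : (B : ℝ) * K * Δ = B * Λ := by rw [hΛd]; ring
    linarith
  have hα₁' : ∀ i : ℕ, (α₁ + η) * ℓ ≤ ((k0 + i * Δ : ℕ) : ℝ) := by
    intro i
    refine hk0a.trans ?_
    have : k0 ≤ k0 + i * Δ := Nat.le_add_right _ _
    exact_mod_cast this
  have hjex : ∀ i : ℕ, ∃ j : ℤ → ℕ, i ≤ B * K → LN C L (k0 + i * Δ) j := by
    intro i
    by_cases hi : i ≤ B * K
    · obtain ⟨j, hj⟩ := hnet L hLL (k0 + i * Δ) (hα₁' i) (hiB i hi)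
      exact ⟨j, fun _ => hj⟩
    · exact ⟨fun _ => 0, fun h => absurd h hi⟩
  choose j hLN using hjex
  have hkt : ∀ i ≤ B * K, ((k0 + i * Δ : ℕ) : ℝ) ≤ (1 - e) * t := by
    intro i hi
    have := hiB i hi
    nlinarith
  have hin : ∀ i ≤ B * K, ∀ x, (oc t (x + j i x) : ℤ) ∈ LSg L t x := by
    intro i hi x
    refine in_LSg hC hL (hLN i hi) ?_ ?_ x
    · have e1 := hkt i hi
      have e2 : ((k0 + i * Δ : ℕ) : ℝ) ≤ t := by nlinarith
      exact_mod_cast e2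
    · have e1 : lC ≤ ((α₁ + η) * Real.log 2 - 1) * ℓ := by
        have : lC / ((α₁ + η) * Real.log 2 - 1) ≤ ℓ := by linarith
        rw [div_le_iff₀ hden] at this
        linarith
      have hpos : 0 < 8 * (2 * C + 1) * C := by positivity
      have e2 : 8 * (2 * C + 1) * (C * L) = Real.exp (lC + ℓ) := by
        rw [Real.exp_add, hlC, hℓd, Real.exp_log hpos, Real.exp_log hL0]
        ring
      have e3 : (2 : ℝ) ^ (k0 + i * Δ) = Real.exp (((k0 + i * Δ : ℕ) : ℝ) * Real.log 2) := by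
        rw [← Real.rpow_natCast 2 (k0 + i * Δ), Real.rpow_def_of_pos (by norm_num : (0 : ℝ) < 2)]
        congr 1
        ring
      rw [e2, e3]
      apply Real.exp_le_exp.2
      have e4 : (α₁ + η) * ℓ * Real.log 2 ≤ ((k0 + i * Δ : ℕ) : ℝ) * Real.log 2 :=
        mul_le_mul_of_nonneg_right (hα₁' i) hlog0.le
      linarith
  have hC1 : C₁ ≤ 0.05 * √(t : ℝ) := by
    have e1 : C₁ ≤ |C₁| := le_abs_self _
    linarith
  have hlow := lower (C := C) (C₁ := C₁) (e := e) (h₀ := h₀) (ε₁ := ε₁) (H := H) (t := t) (L := L)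
    (B := B) (K := K) (Δ := Δ) (k0 := k0) (j := j) hε10.le hh0 ht1 he0 hK1
    (fun k hk hk' j hj => hta t hta' L hL hℓt' k hk hk' j hj)
    (fun k hk hk' j hj => htb t htb' L hL hℓt' k hk hk' j hj)
    (fun k k' j j' D a b c d f g => hfar L t k k' j j' D hL a b ht1 c d f g)
    (fun i hi => hLN i hi) hkt hΔ1 hΔ2 (by linarith) hKlo hC1
    (fun M => fsum hh0 hε10 hε11 hH hH2 hKhi2 M) hin
  refine le_trans ?_ hlow
  obtain ⟨δ, hδ⟩ : ∃ δ : ℝ, δ = h₀ ^ 2 / (3 * e) := ⟨_, rfl⟩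
  have hδe : δ = e ^ 3 / 300 := by
    rw [hδ, hh]
    field_simp
    ring
  have hδ0 : 0 ≤ δ := by rw [hδe]; positivity
  have he3 : e ^ 3 ≤ 1 := pow_le_one₀ he0.le he1
  have hδ1 : δ ≤ 1 := by rw [hδe]; linarith
  have hBt : (k0 : ℝ) + B * Λ ≤ (1 - e) * t := by nlinarith
  have hriem := riem (K := (K : ℝ)) (t := (t : ℝ)) (k0 := (k0 : ℝ)) hh0 he0 ht0 hδ hδ1 hΛ0.le
    (Nat.cast_nonneg K) hΛ1 B hBt
  have hsumeq : ∑ b ∈ range B, ((K : ℝ) * Erf (h₀ * √(t : ℝ) / √((t : ℝ) - ((k0 + (b * K + K) * Δ : ℕ) : ℝ))) - 5 * ε₁) =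
      ∑ b ∈ range B, (K : ℝ) * Erf (h₀ * √(t : ℝ) / √((t : ℝ) - ((k0 : ℝ) + (b + 1) * Λ))) - B * (5 * ε₁) := by
    rw [sum_sub_distrib, sum_const, card_range, nsmul_eq_mul]
    congr 1
    apply sum_congr rfl
    intro b _
    congr 5
    rw [hΛd]
    push_cast
    ring
  rw [hsumeq]
  obtain ⟨P, hP⟩ : ∃ P : ℝ, P = √((t : ℝ) - k0) := ⟨_, rfl⟩
  obtain ⟨Q, hQ⟩ : ∃ Q : ℝ, Q = √((t : ℝ) - (k0 + B * Λ)) := ⟨_, rfl⟩
  obtain ⟨P', hP'⟩ : ∃ P' : ℝ, P' = √((t : ℝ) - α₁ * ℓ) := ⟨_, rfl⟩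
  obtain ⟨Q', hQ'⟩ : ∃ Q' : ℝ, Q' = √((t : ℝ) - α₂ * ℓ) := ⟨_, rfl⟩
  obtain ⟨g1, g2, g3, g4⟩ := fin_est he0 ht0 hℓ0.le hη0.le hα.le hαe he1 hk0a hk0b
    (by linarith) (by linarith) (by positivity) hP hQ hP' hQ'
  rw [← hP, ← hQ] at hriem
  rw [← hP', ← hQ']
  have hpi1 : 1 ≤ √Real.pi := by
    rw [Real.one_le_sqrt]
    linarith [Real.pi_gt_three]
  obtain ⟨c, hc⟩ : ∃ c : ℝ, c = 4 * kap / √Real.pi := ⟨_, rfl⟩
  have hc0 : 0 ≤ c := by rw [hc]; positivity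
  have hc1 : c ≤ 1 := by
    rw [hc, div_le_one (by linarith)]
    linarith
  have hcc : 2 / √Real.pi * (1 - δ) * (2 * kap) = c * (1 - δ) := by
    rw [hc]
    ring
  rw [hcc] at hriem
  rw [← hc]
  exact final he0 he1 heε hη1 hδe hε1 hα1 hα42 hℓ0 hη0 (Nat.cast_nonneg k0) hM₀ hMt (by linarith) hΛst hΛ1 hKh
    (Nat.cast_nonneg B) hB1 g1 g2 g3 hriem hc0 hc1

end Pool.Agent.Q223.BT
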